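import Mathlib
import Pool.Agent.H76.K24Alg

set_option autoImplicit false

open Pool.Agent.H76.PolySphere Pool.Agent.H76.LefDefs in
theorem Pool.Agent.Results.MP_5d3ebc_al.NoWLP.result :
    ∃ (Δ : Set (Finset (Fin 50))) (c : Fin 50 → Fin 5),
      (∀ s ∈ Δ, ∀ t, t ⊆ s → t ∈ Δ) ∧ (∀ v, {v} ∈ Δ) ∧
      (∀ s ∈ Δ, ∃ t ∈ Δ, s ⊆ t ∧ t.card = 5) ∧
      Nonempty (realization Δ ≃ₜ Metric.sphere (0 : EuclideanSpace ℝ (Fin 5)) 1) ∧
      (∀ u v, u ≠ v → {u, v} ∈ Δ → c u ≠ c v) ∧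
      ∀ (K : Type) [Field K],
        ¬ WLP (srIdeal K Δ ⊔ colIdeal K c) := by
  open Pool.Agent.H76.K24 in
  refine ⟨cx F, col, ?_, ?_, ?_, sphere, ?_, fun K _ => (not_wlp K)⟩
  · rintro s ⟨j, hj⟩ t ht
    exact ⟨j, fun v hv => hj v (ht hv)⟩
  · intro v
    obtain ⟨j, hj, e⟩ := Pool.Agent.H76.K24.c8 v v.2
    refine ⟨⟨j, hj⟩, fun w hw => ⟨Pool.Agent.H76.K24.col v, ?_⟩⟩
    rw [Finset.mem_singleton.1 hw]
    exact Fin.ext e
  · rintro s ⟨j, hj⟩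
    refine ⟨Finset.univ.image (Pool.Agent.H76.K24.F j), ⟨j, fun v hv => by simpa using hv⟩,
      fun v hv => by simpa using hj v hv, ?_⟩
    rw [Finset.card_image_of_injective]
    · simp
    · intro i i' e
      have := congrArg Pool.Agent.H76.K24.col e
      rwa [Pool.Agent.H76.K24.col_F, Pool.Agent.H76.K24.col_F] at this
  · rintro u v hne ⟨j, hj⟩ h
    obtain ⟨i, rfl⟩ := hj u (by simp)
    obtain ⟨i', rfl⟩ := hj v (by simp)
    rw [Pool.Agent.H76.K24.col_F, Pool.Agent.H76.K24.col_F] at h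
    exact hne (by rw [h])
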